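import Pool.Agent.W12.WA.Base4a

/-!
# Gap for laws close to laws with small support
-/

set_option autoImplicit false

namespace Pool.Agent.W12.WA.Base4

open MeasureTheory Filter Set
open Pool.Agent.W792.LL Pool.Agent.W792.WA
open Pool.Agent.W414.WA (lev_supp conv_supp cay_norm cay_add_one cay_int cay_meas)
open Pool.Agent.W335.WAB.BaseJ
open Pool.Agent.W160.WA.Base3 (Hf_cont jf_eq)
open scoped Topology

theorem aux1 {q n : ℝ} (h0 : 0 ≤ q) (h1 : q < 1) (hn : 0 ≤ n) (hn1 : n ≤ 1) : q * n < 1 := by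
  nlinarith

theorem aux2 {a b δ : ℝ} (hδ : 0 < δ) (h2 : 1 ≤ b) (h3 : a ≤ 4 * δ) : a ≤ 4 * δ * b := by
  nlinarith

theorem aux3 {n c : ℝ} (h : n ^ 2 ≤ 1 - 2 * c) : n ^ 2 ≤ (1 - c) ^ 2 := by
  nlinarith [sq_nonneg c]

theorem aux4 {a b e V : ℝ} (ha : 0 ≤ a) (hb : 0 ≤ b) (he : 0 ≤ e) (h3 : a ≤ b + e)
    (h2 : b ^ 2 ≤ 1 - V / 16) (hV : 0 ≤ V) (hV1 : V ≤ 1) (he2 : 3 * e ≤ V / 32) :
    a ^ 2 ≤ 1 - V / 32 := by
  have h4 : b ≤ 1 := by nlinarith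
  have h5 : a ^ 2 ≤ (b + e) ^ 2 := by gcongr
  have h6 : e ≤ 1 := by linarith
  have h7 : (b + e) ^ 2 = b ^ 2 + 2 * (b * e) + e * e := by ring
  have h8 : b * e ≤ 1 * e := by gcongr
  have h9 : e * e ≤ 1 * e := by gcongr
  linarith

theorem aux5 {n V : ℝ} (hn : 0 ≤ n) (hV : 0 < V) (h : n ^ 2 ≤ 1 - V / 32) : n ≤ 1 := by
  nlinarith

theorem aux6 {n V : ℝ} (h : n ^ 2 ≤ 1 - V / 32) : n ^ 2 ≤ (1 - V / 64) ^ 2 := by
  nlinarith [sq_nonneg V]

theorem aux7 {v J : ℝ} (hv : 0 < v) (hJ : J ≤ 1) (hJ0 : 0 < J) : 1 - v ≤ 1 - v * J / 32 := by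
  nlinarith

/-- the theorem -/
theorem main : S_SC1 → S_UUC → S_PSI → S_FIX → S_PERT3 → S_CX → S_PSIX → S_BASE4 := by
  intro hSC1 hUUC _ hFIX hPERT hCX hPSIX ψ hψ r J₀ κ D C hr hJ₀ hκ
  obtain ⟨hcx1, -, hcx3, hcx4⟩ := hCX
  have hCB : (1 : ℝ) ≤ 1 + 2 * (2 / r) := by
    have : 0 < 2 * (2 / r) := by positivity
    linarith
  obtain ⟨c₀, hc₀, hP⟩ := hPERT (1 + 2 * (2 / r)) hCB
  obtain ⟨v₀, hv₀, hV⟩ := semi_var hψ hr
  obtain ⟨J, hJdef⟩ : ∃ J, J = min J₀ 1 / 2 := ⟨_, rfl⟩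
  have hmin : 0 < min J₀ 1 := lt_min hJ₀ one_pos
  have hJ : 0 < J := by rw [hJdef]; positivity
  have hJ1 : J ≤ 1 := by
    have : min J₀ 1 ≤ 1 := min_le_right _ _
    rw [hJdef]; linarith
  have hJJ : 2 * J ≤ J₀ := by
    have : min J₀ 1 ≤ J₀ := min_le_left _ _
    rw [hJdef]; linarith
  have hκJ : 0 < κ * J := mul_pos hκ hJ
  obtain ⟨Kh, hKh⟩ : ∃ Kh : ℝ, Kh = 2 / r * Real.sqrt (8 / r) := ⟨_, rfl⟩
  have hKh0 : 0 ≤ Kh := by rw [hKh]; positivity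
  obtain ⟨KR, hKR⟩ : ∃ KR : ℝ, KR = KK (2 / r) Kh := ⟨_, rfl⟩
  have hKp : 0 < KR := by
    rw [hKR]; unfold KK; positivity
  obtain ⟨Y, hY⟩ : ∃ Y : ℝ, Y = 2 * |D| + 1 := ⟨_, rfl⟩
  have hY0 : 0 < Y := by rw [hY]; positivity
  obtain ⟨cv, hcv⟩ : ∃ cv, cv = min (1 / (4 * (Y + r + |C|) ^ 2)) (v₀ / (4 * (Y + r + |C|) ^ 4)) :=
    ⟨_, rfl⟩
  have hcv0 : 0 < cv := by
    rw [hcv]
    refine lt_min ?_ ?_ <;> positivity
  -- the gap constant
  obtain ⟨c₂, hc₂⟩ : ∃ c₂ : ℝ, c₂ = cv * (κ * J) / (256 * (1 + (1 + 2 * (2 / r))) ^ 2) := ⟨_, rfl⟩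
  have hc₂0 : 0 < c₂ := by rw [hc₂]; positivity
  refine ⟨min (min (min ((J / KR) ^ 2) c₀) (min (c₀ ^ 2 * (κ * J)) (1 / 4)))
    (min (min (c₂ ^ 3 / 8) (κ * J * c₂ ^ 3 / 768)) (κ / 4)), κ * J / 64,
    by positivity, by positivity, ?_⟩
  intro X X' δ d K ρ' _ z hδ hδ₂ hX' hcd hvr hρ' hKD hzD hzim hjf s hs
  obtain ⟨ha, hb⟩ := le_min_iff.1 hδ₂
  obtain ⟨ha1, ha2⟩ := le_min_iff.1 ha
  obtain ⟨hδ1, hδc⟩ := le_min_iff.1 ha1
  obtain ⟨hδκ, hδ4⟩ := le_min_iff.1 ha2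
  obtain ⟨hb1, hδκ4⟩ := le_min_iff.1 hb
  obtain ⟨hδ5, hδ6⟩ := le_min_iff.1 hb1
  have hδle1 : δ ≤ 1 := by linarith
  have hδs : KR * Real.sqrt δ ≤ J := by
    have h1 : Real.sqrt δ ≤ J / KR := by
      refine (Real.sqrt_le_sqrt hδ1).trans ?_
      rw [Real.sqrt_sq (by positivity)]
    calc KR * Real.sqrt δ ≤ KR * (J / KR) := by gcongr
      _ = J := by field_simp
  obtain ⟨v', hv'⟩ : ∃ v', v' = vr (qlaw X') := ⟨_, rfl⟩
  rw [← hv'] at hvr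
  have hvpos : 0 < v' := lt_of_lt_of_le (by positivity) hvr
  have hv1 : v' ≤ 1 := by
    rw [hv']
    unfold vr
    have := sq_nonneg ‖∫ x, cay x ∂(qlaw X')‖
    linarith
  have hvJ : 0 < v' * J := mul_pos hvpos hJ
  have hvJ1 : v' * J ≤ 1 := mul_le_one₀ hv1 hJ.le hJ1
  have hδ14 : δ ^ 14 ≤ 1 := pow_le_one₀ hδ.le hδle1
  have hX0 : 0 < vr (qlaw X) := by
    have h1 := vr_close X X' (by positivity : 0 < δ ^ 14) hδ14 hcd
    rw [← hv'] at h1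
    have h2 : δ ^ 14 ≤ δ ^ 4 := pow_le_pow_of_le_one hδ.le hδle1 (by norm_num)
    have h3 : δ ^ 4 ≤ κ / 4 * δ ^ 3 := by
      calc δ ^ 4 = δ * δ ^ 3 := by ring
        _ ≤ _ := by gcongr
    have h4 : 0 < κ * δ ^ 3 := by positivity
    linarith
  refine ⟨hX0, ?_⟩
  have hsq : δ ^ 2 ≤ c₀ * Real.sqrt (v' * J) := by
    have h1 : δ ^ 2 / c₀ ≤ Real.sqrt (v' * J) := by
      apply Real.le_sqrt_of_sq_le
      rw [div_pow, div_le_iff₀ (by positivity)]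
      calc (δ ^ 2) ^ 2 = δ * δ ^ 3 := by ring
        _ ≤ c₀ ^ 2 * (κ * J) * δ ^ 3 := by gcongr
        _ = (κ * δ ^ 3) * J * c₀ ^ 2 := by ring
        _ ≤ v' * J * c₀ ^ 2 := by gcongr
    calc δ ^ 2 = c₀ * (δ ^ 2 / c₀) := by field_simp
      _ ≤ _ := by gcongr
  have hX'a : ∀ᵐ x ∂(qlaw X'), |x| ≤ δ := by
    unfold qlaw
    rw [ae_map_iff X'.2.aemeasurable (measurableSet_le measurable_abs measurable_const)]
    exact ae_of_all _ fun u => hX' u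
  have hcay : ∀ᵐ x ∂(qlaw X'), ‖cay x + 1‖ ≤ 2 * δ := by
    filter_upwards [hX'a] with x hx
    exact (cay_add_one x).trans (by linarith)
  have hx : ∀ k, ((K k : ℂ) - z).im < 0 := by
    intro k
    simp
    exact hzim
  have hxD : ∀ k, ‖(K k : ℂ) - z‖ ≤ 2 * |D| := by
    intro k
    refine (norm_sub_le _ _).trans ?_
    rw [Complex.norm_real]
    have h1 := (K.norm_coe_le_norm k).trans (hKD.trans (le_abs_self D))
    have h2 := hzD.trans (le_abs_self D)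
    linarith
  obtain ⟨ρ, hρdef⟩ : ∃ ρ : Measure ℝ, ρ = (lev ψ r).conv ρ' := ⟨_, rfl⟩
  have : IsProbabilityMeasure ρ := by rw [hρdef]; infer_instance
  have hρs : ρ (Set.Icc (-(r + C)) (r + C))ᶜ = 0 := by
    rw [hρdef]
    exact conv_supp _ _ r C (lev_supp ψ hψ r hr) hρ'
  obtain ⟨q, hq0, hq1, hq⟩ := hcx3 (r + C) (‖K‖ + ‖z‖) z.im hzim
  obtain ⟨w, hw⟩ : ∃ w : UnitAddTorus (Fin d) → ℝ → ℂ, w = wz K z := ⟨_, rfl⟩
  have hwc : Continuous (Function.uncurry w) := by rw [hw]; exact hcx4 d K z hzim.le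
  have hwq : ∀ k, ∀ a ∈ Set.Icc (-(r + C)) (r + C), ‖w k a‖ ≤ q := by
    intro k a ha
    rw [hw]
    unfold wz
    apply hq
    · refine (norm_sub_le _ _).trans ?_
      gcongr
      rw [Complex.norm_real]
      exact K.norm_coe_le_norm k
    · simp
    · exact abs_le.mpr ha
  have hwm : ∀ k, Measurable (w k) := fun k =>
    (hwc.comp (by fun_prop : Continuous fun a : ℝ => (k, a))).measurable
  have hwae : ∀ k, ∀ᵐ a ∂ρ, ‖w k a‖ ≤ q := by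
    intro k
    have h1 : ∀ᵐ a ∂ρ, a ∈ Set.Icc (-(r + C)) (r + C) := hρs
    filter_upwards [h1] with a ha
    exact hwq k a ha
  rw [← hρdef, ← hw] at hs
  obtain ⟨-, -, hinv⟩ := hFIX (qlaw X) d ρ (r + C) q w hX0 hρs hwc hq0 hq1 hwq
  obtain ⟨Z, hZ⟩ : ∃ Z : Set C(UnitAddTorus (Fin d), ℂ), Z =
    {s | ‖s‖ ≤ 1 ∧ (∀ k, ‖s k + 1‖ ≤ 4 * δ) ∧ ∀ k, ‖s k‖ ^ 2 ≤ 1 - v' * J / 32} := ⟨_, rfl⟩
  have hZmem : ∀ s, s ∈ Z ↔ (‖s‖ ≤ 1 ∧ (∀ k, ‖s k + 1‖ ≤ 4 * δ) ∧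
      ∀ k, ‖s k‖ ^ 2 ≤ 1 - v' * J / 32) := by
    intro s; rw [hZ]; exact Iff.rfl
  have hZc : IsClosed Z := by
    have h1 : Z = {s | ‖s‖ ≤ 1} ∩ ((⋂ k, {s : C(UnitAddTorus (Fin d), ℂ) | ‖s k + 1‖ ≤ 4 * δ}) ∩
        ⋂ k, {s : C(UnitAddTorus (Fin d), ℂ) | ‖s k‖ ^ 2 ≤ 1 - v' * J / 32}) := by
      ext s
      simp [hZ]
    rw [h1]
    refine IsClosed.inter (isClosed_le continuous_norm continuous_const)
      (IsClosed.inter (isClosed_iInter fun k => isClosed_le ?_ continuous_const)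
        (isClosed_iInter fun k => isClosed_le ?_ continuous_const))
    · exact ((continuous_eval_const k).add continuous_const).norm
    · exact (continuous_eval_const k).norm.pow 2
  have hZn : Z.Nonempty := by
    refine ⟨ContinuousMap.const _ (∫ x, cay x ∂(qlaw X')), (hZmem _).2 ⟨?_, fun k => ?_, fun k => ?_⟩⟩
    · rw [ContinuousMap.norm_le _ zero_le_one]
      intro k
      rw [ContinuousMap.const_apply]
      calc ‖∫ x, cay x ∂(qlaw X')‖ ≤ ∫ x, ‖cay x‖ ∂(qlaw X') := norm_integral_le_integral_norm _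
        _ = 1 := by simp [cay_norm]
    · rw [ContinuousMap.const_apply]
      have h1 : ∫ x, cay x ∂(qlaw X') + 1 = ∫ x, (cay x + 1) ∂(qlaw X') := by
        rw [integral_add (cay_int (qlaw X')) (integrable_const _)]
        simp
      rw [h1]
      calc ‖∫ x, (cay x + 1) ∂(qlaw X')‖ ≤ 2 * δ * ((qlaw X').real univ) := by
            exact norm_integral_le_of_norm_le_const hcay
        _ ≤ 4 * δ := by simp; linarith
    · rw [ContinuousMap.const_apply]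
      have h1 : ‖∫ x, cay x ∂(qlaw X')‖ ^ 2 = 1 - v' := by rw [hv']; unfold vr; ring
      rw [h1]
      exact aux7 hvpos hJ1 hJ
  have hZ1 : ∀ s ∈ Z, ‖s‖ ≤ 1 := fun s hs => ((hZmem s).1 hs).1
  have hZi : ∀ s ∈ Z, psi (qlaw X) (UU ρ w s) ∈ Z := by
    intro s hsZ
    obtain ⟨hs1, hs2, hs3⟩ := (hZmem s).1 hsZ
    have hqs : q * ‖s‖ < 1 := aux1 hq0 hq1 (norm_nonneg s) hs1
    obtain ⟨hU1, hU2⟩ := hUUC d ρ (r + C) q w s hρs hwc hq0 hq1.le hwq hs1 hqs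
    have hsk : ∀ k, ‖s k‖ ≤ 1 := fun k => (s.norm_coe_le_norm k).trans hs1
    have hne : ∀ k, 1 - s k ≠ 0 := by
      intro k h
      have := one_le_sub (hs2 k) hδ4
      rw [h, norm_zero] at this
      linarith
    have hSC : ∀ k, 1 + s k * Bs ρ (w k) (s k) ≠ 0 ∧ 1 - UU ρ w s k * s k ≠ 0 ∧
        UU ρ w s k / (1 - UU ρ w s k * s k) = Bs ρ (w k) (s k) := by
      intro k
      obtain ⟨-, h2, -, h4, h5⟩ := hSC1 ρ (w k) q (s k) (hwm k) hq0 hq1.le (hwae k) (hsk k)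
        (aux1 hq0 hq1 (norm_nonneg (s k)) (hsk k))
      rw [hU1 k]
      exact ⟨h2, h4, h5⟩
    obtain ⟨B, hB⟩ : ∃ B : C(UnitAddTorus (Fin d), ℂ), ∀ k,
        B k = UU ρ w s k / (1 - UU ρ w s k * s k) := by
      refine ⟨⟨fun k => UU ρ w s k / (1 - UU ρ w s k * s k), ?_⟩, fun k => rfl⟩
      apply Continuous.div (UU ρ w s).continuous
        (continuous_const.sub ((UU ρ w s).continuous.mul s.continuous))
      exact fun k => (hSC k).2.1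
    have hBk : ∀ k, B k = Bs ρ (w k) (s k) := fun k => (hB k).trans (hSC k).2.2
    have hHG : ∀ k, ‖Hf ψ r ρ' (ys ((K k : ℂ) - z) (s k)) - Hf ψ r ρ' ((K k : ℂ) - z)‖ ≤
        Kh * Real.sqrt δ := by
      intro k
      refine (Hf_holder hψ hr (ys_im (hx k) (hsk k)) (hx k) ρ').trans ?_
      rw [ys_sub, norm_neg, norm_div, norm_mul, Complex.norm_I, one_mul, hKh, mul_assoc,
        ← Real.sqrt_mul (by positivity)]
      have h1 : ‖1 + s k‖ / ‖1 - s k‖ ≤ 4 * δ := by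
        have h2 := one_le_sub (hs2 k) hδ4
        have h3 : ‖1 + s k‖ ≤ 4 * δ := by rw [add_comm]; exact hs2 k
        rw [div_le_iff₀ (lt_of_lt_of_le one_pos h2)]
        exact aux2 hδ h2 h3
      have h4 : 2 / r * (‖1 + s k‖ / ‖1 - s k‖) ≤ 8 / r * δ := by
        calc 2 / r * (‖1 + s k‖ / ‖1 - s k‖) ≤ 2 / r * (4 * δ) := by gcongr
          _ = 8 / r * δ := by ring
      gcongr
    have hBform : ∀ k, B k = 1 / (1 - s k) +
        2 * Complex.I / (1 - s k) ^ 2 * Hf ψ r ρ' (ys ((K k : ℂ) - z) (s k)) := by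
      intro k
      rw [hBk k, hρdef, hw]
      exact Bs_eq ψ r ρ' (hx k) (hsk k) (hne k)
    have hsc : ∀ k, ‖B k‖ ≤ 1 + 2 * (2 / r) ∧
        |‖1 + s k * B k‖ ^ 2 - ‖B k‖ ^ 2 - (Hf ψ r ρ' ((K k : ℂ) - z)).im| ≤
          KR * Real.sqrt δ := by
      intro k
      rw [hKR]
      exact scal (hsk k) (hs2 k) hδ.le hδ4 (Hf_bound hψ hr (ys_im (hx k) (hsk k)) ρ')
        (Hf_bound hψ hr (hx k) ρ') hKh0 (hHG k) (hBform k)
    have hint : J ≤ ∫ k, (‖1 + s k * B k‖ ^ 2 - ‖B k‖ ^ 2) := by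
      have hHc := Hf_cont hψ hr ρ' K hzim
      have hHi : Integrable fun k => (Hf ψ r ρ' ((K k : ℂ) - z)).im :=
        (Complex.continuous_im.comp hHc).integrable_of_hasCompactSupport (μ := volume)
          (HasCompactSupport.of_compactSpace _)
      have hFc : Continuous fun k => ‖1 + s k * B k‖ ^ 2 - ‖B k‖ ^ 2 :=
        ((continuous_const.add (s.continuous.mul B.continuous)).norm.pow 2).sub
          (B.continuous.norm.pow 2)
      have hFi := hFc.integrable_of_hasCompactSupport (μ := volume)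
        (HasCompactSupport.of_compactSpace _)
      have hmono := integral_mono (hHi.sub (integrable_const (KR * Real.sqrt δ))) hFi (fun k => by
        have h1 := (abs_le.1 (hsc k).2).1
        show (Hf ψ r ρ' ((K k : ℂ) - z)).im - KR * Real.sqrt δ ≤ _
        linarith)
      refine le_trans ?_ hmono
      have e : ∫ k, ((Hf ψ r ρ' ((K k : ℂ) - z)).im - KR * Real.sqrt δ) =
          jf ((lev ψ r).conv ρ') K z - KR * Real.sqrt δ := by
        rw [integral_sub hHi (integrable_const _), jf_eq ρ' K hzim]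
        simp
      show J ≤ ∫ k, ((Hf ψ r ρ' ((K k : ℂ) - z)).im - KR * Real.sqrt δ)
      rw [e]
      linarith
    have hUB : ∀ k, UU ρ w s k * (1 + s k * B k) = B k := by
      intro k
      rw [hBk, hU1 k]
      unfold Us
      exact div_mul_cancel₀ _ (hSC k).1
    have hPk := hP (qlaw X') d s (UU ρ w s) B δ J hδ hδc hcay (hU2.trans_lt hq1) hs1 hs2
      (fun k => (hsc k).1) hUB hJ hint (by rw [← hv']; exact hsq)
    rw [← hv'] at hPk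
    -- the explicit gap of the contraction
    have hUk1 : ∀ k, ‖UU ρ w s k‖ ≤ 1 := fun k =>
      ((UU ρ w s).norm_coe_le_norm k).trans (hU2.trans hq1.le)
    have hys : ∀ k, ‖ys ((K k : ℂ) - z) (s k)‖ ≤ Y := by
      intro k
      unfold ys
      refine (norm_sub_le _ _).trans ?_
      rw [hY, norm_div, norm_mul, Complex.norm_I, one_mul]
      have h2 := one_le_sub (hs2 k) hδ4
      have h3 : ‖1 + s k‖ ≤ 4 * δ := by rw [add_comm]; exact hs2 k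
      have h4 : ‖1 + s k‖ / ‖1 - s k‖ ≤ 1 := by
        rw [div_le_iff₀ (by linarith)]
        linarith
      linarith [hxD k]
    have hUsq : ∀ k, ‖UU ρ w s k‖ ^ 2 ≤ 1 - 2 * (c₂ * δ ^ 3) := by
      intro k
      have h1 := gap hψ hr hv₀ hV ρ' hρ' (hx k) (hsk k) (hne k) (hys k) (hBform k)
      rw [← hcv] at h1
      have h2 := gapU (hsk k) (hsc k).1 (hUB k) h1 (hUk1 k)
      have h3 : κ * δ ^ 3 * J / 32 ≤ 1 - ‖s k‖ ^ 2 := by
        have h4 := hs3 k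
        have h5 : κ * δ ^ 3 * J ≤ v' * J := by gcongr
        linarith
      have h6 : 1 / 4 * (κ * δ ^ 3 * J / 32) * cv ≤
          (1 - ‖UU ρ w s k‖ ^ 2) * (1 + (1 + 2 * (2 / r))) ^ 2 := by
        refine le_trans ?_ h2
        gcongr
      have h7 : (0 : ℝ) < (1 + (1 + 2 * (2 / r))) ^ 2 := by positivity
      have h8 : 1 / 4 * (κ * δ ^ 3 * J / 32) * cv = 2 * (c₂ * δ ^ 3) * (1 + (1 + 2 * (2 / r))) ^ 2 := by
        rw [hc₂]
        field_simp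
        norm_num
      rw [h8] at h6
      have h9 := le_of_mul_le_mul_right h6 h7
      linarith
    have hcδ : 0 < c₂ * δ ^ 3 := by positivity
    have hcδ1 : c₂ * δ ^ 3 ≤ 1 / 2 := by
      have h1 := hUsq (fun _ => 0)
      have h2 := sq_nonneg ‖UU ρ w s (fun _ => 0)‖
      linarith
    have hUn : ‖UU ρ w s‖ ≤ 1 - c₂ * δ ^ 3 := by
      rw [ContinuousMap.norm_le _ (by linarith)]
      intro k
      have h1 : ‖UU ρ w s k‖ ^ 2 ≤ (1 - c₂ * δ ^ 3) ^ 2 := aux3 (hUsq k)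
      exact (pow_le_pow_iff_left₀ (norm_nonneg _) (by linarith) two_ne_zero).1 h1
    have hψψ := hPSIX (1 - c₂ * δ ^ 3) (δ ^ 14) X X' (by linarith) (by linarith) (by positivity)
      hcd d (UU ρ w s) hUn
    have hE : 8 / (1 - (1 - c₂ * δ ^ 3)) ^ 3 * δ ^ 14 = 8 / c₂ ^ 3 * δ ^ 5 := by
      have : 1 - (1 - c₂ * δ ^ 3) = c₂ * δ ^ 3 := by ring
      rw [this]
      field_simp
    rw [hE] at hψψ
    obtain ⟨e, he⟩ : ∃ e, e = 8 / c₂ ^ 3 * δ ^ 5 := ⟨_, rfl⟩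
    rw [← he] at hψψ
    have he0 : 0 ≤ e := by rw [he]; positivity
    have he1 : e ≤ δ := by
      have h1 : δ ^ 5 ≤ δ * δ := by
        have : δ ^ 5 ≤ δ ^ 2 := pow_le_pow_of_le_one hδ.le hδle1 (by norm_num)
        linarith [sq δ]
      calc e ≤ 8 / c₂ ^ 3 * (δ * δ) := by rw [he]; gcongr
        _ ≤ 8 / c₂ ^ 3 * (c₂ ^ 3 / 8 * δ) := by gcongr
        _ = δ := by field_simp
    have he2 : 3 * e ≤ v' * J / 32 := by
      have h1 : δ ^ 5 ≤ δ * δ ^ 3 := by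
        have : δ ^ 5 ≤ δ ^ 4 := pow_le_pow_of_le_one hδ.le hδle1 (by norm_num)
        calc δ ^ 5 ≤ δ ^ 4 := this
          _ = _ := by ring
      have h2 : e ≤ κ * J / 96 * δ ^ 3 := by
        calc e ≤ 8 / c₂ ^ 3 * (δ * δ ^ 3) := by rw [he]; gcongr
          _ ≤ 8 / c₂ ^ 3 * (κ * J * c₂ ^ 3 / 768 * δ ^ 3) := by gcongr
          _ = κ * J / 96 * δ ^ 3 := by field_simp; norm_num
      have h5 : κ * δ ^ 3 * J ≤ v' * J := by gcongr
      linarith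
    have hdk : ∀ k, ‖psi (qlaw X) (UU ρ w s) k - psi (qlaw X') (UU ρ w s) k‖ ≤ e := by
      intro k
      refine le_trans ?_ hψψ
      exact (psi (qlaw X) (UU ρ w s) - psi (qlaw X') (UU ρ w s)).norm_coe_le_norm k
    have hs3' : ∀ k, ‖psi (qlaw X) (UU ρ w s) k‖ ^ 2 ≤ 1 - v' * J / 32 := by
      intro k
      obtain ⟨a, ha⟩ : ∃ a, a = psi (qlaw X) (UU ρ w s) k := ⟨_, rfl⟩
      obtain ⟨b, hb⟩ : ∃ b, b = psi (qlaw X') (UU ρ w s) k := ⟨_, rfl⟩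
      have h1 := hdk k
      have h2 := (hPk k).2
      rw [← ha, ← hb] at h1
      rw [← hb] at h2
      rw [← ha]
      have h3 : ‖a‖ ≤ ‖b‖ + e := by
        have : a = b + (a - b) := by ring
        calc ‖a‖ = ‖b + (a - b)‖ := by rw [← this]
          _ ≤ ‖b‖ + ‖a - b‖ := norm_add_le _ _
          _ ≤ _ := by linarith
      exact aux4 (norm_nonneg a) (norm_nonneg b) he0 h3 h2 hvJ.le hvJ1 he2
    refine (hZmem _).2 ⟨?_, fun k => ?_, hs3'⟩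
    · rw [ContinuousMap.norm_le _ zero_le_one]
      intro k
      exact aux5 (norm_nonneg _) hvJ (hs3' k)
    · have h1 := hdk k
      have h2 := (hPk k).1
      have h3 : psi (qlaw X) (UU ρ w s) k + 1 = (psi (qlaw X') (UU ρ w s) k + 1) +
          (psi (qlaw X) (UU ρ w s) k - psi (qlaw X') (UU ρ w s) k) := by ring
      rw [h3]
      refine (norm_add_le _ _).trans ?_
      linarith
  have hsZ := (hZmem s).1 (hinv Z hZc hZn hZ1 hZi s hs)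
  have h0 : κ * J / 64 * δ ^ 3 ≤ v' * J / 64 := by
    have := mul_le_mul_of_nonneg_right hvr hJ.le
    linarith
  have h2 : 0 ≤ 1 - κ * J / 64 * δ ^ 3 := by linarith
  rw [ContinuousMap.norm_le _ h2]
  intro k
  have h1 := hsZ.2.2 k
  have h3 : ‖s k‖ ^ 2 ≤ (1 - v' * J / 64) ^ 2 := aux6 h1
  have h4 : ‖s k‖ ≤ 1 - v' * J / 64 :=
    (pow_le_pow_iff_left₀ (norm_nonneg _) (by linarith) two_ne_zero).1 h3
  linarith

end Pool.Agent.W12.WA.Base4
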