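import Pool.Agent.W792.WA.Stm3
import Pool.Agent.W414.WA.Base
import Pool.Agent.W335.WAB.BaseJ
import Pool.Agent.W160.WA.Base3

/-!
# Gap for laws close to laws with small support
-/

set_option autoImplicit false

namespace Pool.Agent.W12.WA.Base4

open MeasureTheory Filter Set
open Pool.Agent.W792.LL Pool.Agent.W792.WA
open Pool.Agent.W414.WA (lev_supp conv_supp cay_norm cay_add_one cay_int cay_meas)
open Pool.Agent.W335.WAB.BaseJ
open Pool.Agent.W160.WA.Base3 (Hf_cont jf_eq)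
open scoped Topology

/-! ### Algebra -/

theorem alg_aux (p s : ℂ) : ‖1 + 2 * Complex.I * p * s‖ ^ 2 - ‖1 + 2 * Complex.I * p‖ ^ 2 =
    4 * (p * (1 - s)).im - 4 * (1 - ‖s‖ ^ 2) * ‖p‖ ^ 2 := by
  simp only [Complex.sq_norm, Complex.normSq_apply, Complex.add_re, Complex.add_im,
    Complex.mul_re, Complex.mul_im, Complex.one_re, Complex.one_im, Complex.I_re, Complex.I_im,
    Complex.sub_re, Complex.sub_im, Complex.re_ofNat, Complex.im_ofNat]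
  ring

theorem alg_id {s m B : ℂ} (hs : 1 - s ≠ 0)
    (hB : B = 1 / (1 - s) + 2 * Complex.I / (1 - s) ^ 2 * m) :
    ‖1 + s * B‖ ^ 2 - ‖B‖ ^ 2 =
      4 * m.im / ‖1 - s‖ ^ 2 - 4 * (1 - ‖s‖ ^ 2) * ‖m‖ ^ 2 / (‖1 - s‖ ^ 2) ^ 2 := by
  obtain ⟨u, hu⟩ : ∃ u, u = 1 / (1 - s) := ⟨_, rfl⟩
  have hu1 : u * (1 - s) = 1 := by rw [hu]; field_simp
  have hB1 : B = u * (1 + 2 * Complex.I * (u * m)) := by rw [hB, hu]; field_simp
  have hB2 : 1 + s * B = u * (1 + 2 * Complex.I * (u * m) * s) := by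
    rw [hB1]; linear_combination -hu1
  have hn : ‖u‖ ^ 2 = 1 / ‖1 - s‖ ^ 2 := by
    rw [hu, norm_div, norm_one, div_pow, one_pow]
  have hp : ‖1 - s‖ ≠ 0 := norm_ne_zero_iff.2 hs
  have hm : u * m * (1 - s) = m := by linear_combination m * hu1
  have key := alg_aux (u * m) s
  rw [hm, norm_mul, mul_pow, hn] at key
  rw [hB2, hB1, norm_mul, norm_mul, mul_pow, mul_pow, ← mul_sub, key, hn]
  field_simp

/-! ### The variance of the semicircle level -/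

theorem semi_var {ψ : C(UnitAddCircle, ℝ)} (hψ : IsSemi ψ) {r : ℝ} (hr : 0 < r) :
    ∃ v : ℝ, 0 < v ∧ ∀ T : ℝ, v ≤ ∫ φ in Ioc (0 : ℝ) 1, (T - r * ψ (φ : UnitAddCircle)) ^ 2 := by
  have hc := cont_psi ψ
  have hint : ∀ f : ℝ → ℝ, Continuous f → Integrable f (volume.restrict (Ioc (0 : ℝ) 1)) := by
    intro f hf
    exact (hf.integrableOn_Icc (a := 0) (b := 1)).mono_set Ioc_subset_Icc_self
  obtain ⟨μ, hμ⟩ : ∃ μ : ℝ, μ = ∫ φ in Ioc (0 : ℝ) 1, ψ (φ : UnitAddCircle) := ⟨_, rfl⟩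
  have e1 : ∀ T : ℝ, ∫ φ in Ioc (0 : ℝ) 1, (T - r * ψ (φ : UnitAddCircle)) ^ 2 =
      r ^ 2 * (∫ φ in Ioc (0 : ℝ) 1, (ψ (φ : UnitAddCircle) - μ) ^ 2) + (T - r * μ) ^ 2 := by
    intro T
    have e2 : ∀ φ : ℝ, (T - r * ψ (φ : UnitAddCircle)) ^ 2 =
        r ^ 2 * (ψ (φ : UnitAddCircle) - μ) ^ 2 +
          ((T - r * μ) ^ 2 + (-(2 * r * (T - r * μ))) * (ψ (φ : UnitAddCircle) - μ)) := by
      intro φ; ring
    simp_rw [e2]
    rw [integral_add (hint _ (by fun_prop)) (hint _ (by fun_prop)),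
      integral_add (hint _ (by fun_prop)) (hint _ (by fun_prop)),
      integral_const_mul, integral_const_mul, integral_sub (hint _ hc) (hint _ (by fun_prop)), ← hμ]
    simp
  have hpos : 0 < ∫ φ in Ioc (0 : ℝ) 1, (ψ (φ : UnitAddCircle) - μ) ^ 2 := by
    have hcc : Continuous fun φ : ℝ => (ψ (φ : UnitAddCircle) - μ) ^ 2 :=
      (hc.sub continuous_const).pow 2
    rw [integral_pos_iff_support_of_nonneg (fun φ => sq_nonneg _) (hint _ hcc)]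
    rw [pos_iff_ne_zero]
    intro h0
    have h1 := hψ.atom μ
    have h2 : (volume.restrict (Ioc (0 : ℝ) 1)) Set.univ ≤
        (volume.restrict (Ioc (0 : ℝ) 1)) (Function.support fun φ : ℝ => (ψ (φ : UnitAddCircle) - μ) ^ 2)
        + (volume.restrict (Ioc (0 : ℝ) 1)) {φ : ℝ | ψ (φ : UnitAddCircle) = μ} := by
      refine le_trans (measure_mono ?_) (measure_union_le _ _)
      intro φ _
      by_cases h : ψ (φ : UnitAddCircle) = μ
      · exact Or.inr h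
      · refine Or.inl ?_
        have : ψ (φ : UnitAddCircle) - μ ≠ 0 := sub_ne_zero.2 h
        exact pow_ne_zero 2 this
    have hms : MeasurableSet {φ : ℝ | ψ (φ : UnitAddCircle) = μ} :=
      (isClosed_eq hc continuous_const).measurableSet
    have h3 : (volume.restrict (Ioc (0 : ℝ) 1)) {φ : ℝ | ψ (φ : UnitAddCircle) = μ} = 0 := by
      rw [Measure.restrict_apply hms]
      refine measure_mono_null ?_ h1
      rintro φ ⟨h4, h5⟩
      exact ⟨h5, h4⟩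
    rw [h0, h3] at h2
    simp at h2
  refine ⟨r ^ 2 * (∫ φ in Ioc (0 : ℝ) 1, (ψ (φ : UnitAddCircle) - μ) ^ 2), by positivity, fun T => ?_⟩
  rw [e1]
  have := sq_nonneg (T - r * μ)
  linarith

/-- lower bound for one value of the other levels -/
theorem one_var {ψ : C(UnitAddCircle, ℝ)} (hψ : IsSemi ψ) {r v Y C : ℝ} (hr : 0 < r)
    (hV : ∀ T : ℝ, v ≤ ∫ φ in Ioc (0 : ℝ) 1, (T - r * ψ (φ : UnitAddCircle)) ^ 2)
    {y : ℂ} (hy : y.im < 0) (hyY : ‖y‖ ≤ Y) {b : ℝ} (hb : |b| ≤ C) (m : ℂ) :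
    min (1 / (4 * (Y + r + C) ^ 2)) (v / (4 * (Y + r + C) ^ 4)) ≤
      ∫ φ in Ioc (0 : ℝ) 1, ‖1 / (y + ((r * ψ (φ : UnitAddCircle) + b : ℝ) : ℂ)) - m‖ ^ 2 := by
  have hc := cont_psi ψ
  have hint : ∀ f : ℝ → ℝ, Continuous f → Integrable f (volume.restrict (Ioc (0 : ℝ) 1)) := by
    intro f hf
    exact (hf.integrableOn_Icc (a := 0) (b := 1)).mono_set Ioc_subset_Icc_self
  obtain ⟨A, hA⟩ : ∃ A, A = Y + r + C := ⟨_, rfl⟩
  rw [← hA]
  have hA0 : 0 < A := by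
    have h1 : 0 ≤ Y := (norm_nonneg y).trans hyY
    have h2 : 0 ≤ C := (abs_nonneg b).trans hb
    rw [hA]; linarith
  have hcF : Continuous fun φ : ℝ =>
      ‖1 / (y + ((r * ψ (φ : UnitAddCircle) + b : ℝ) : ℂ)) - m‖ ^ 2 := by
    have h1 := (cont_inv hy).comp (by fun_prop : Continuous fun φ : ℝ =>
      r * ψ (φ : UnitAddCircle) + b)
    exact (h1.sub continuous_const).norm.pow 2
  have hpt : ∀ φ : ℝ, ‖1 - m * (y + ((r * ψ (φ : UnitAddCircle) + b : ℝ) : ℂ))‖ ^ 2 / A ^ 2 ≤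
      ‖1 / (y + ((r * ψ (φ : UnitAddCircle) + b : ℝ) : ℂ)) - m‖ ^ 2 := by
    intro φ
    obtain ⟨t, ht⟩ : ∃ t : ℝ, t = r * ψ (φ : UnitAddCircle) + b := ⟨_, rfl⟩
    rw [← ht]
    have hn := (inv_bound hy t).1
    have h1 : 1 / (y + (t : ℂ)) - m = (1 - m * (y + t)) / (y + t) := by
      field_simp
    have h2 : ‖y + (t : ℂ)‖ ≤ A := by
      refine (norm_add_le _ _).trans ?_
      rw [Complex.norm_real, Real.norm_eq_abs]
      have h3 : |t| ≤ r + C := by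
        rw [ht]
        refine (abs_add_le _ _).trans ?_
        have h4 : |r * ψ (φ : UnitAddCircle)| ≤ r := by
          rw [abs_mul, abs_of_pos hr]
          have := hψ.bound (φ : UnitAddCircle)
          nlinarith
        linarith
      rw [hA]; linarith
    have h5 : 0 < ‖y + (t : ℂ)‖ := norm_pos_iff.2 hn
    rw [h1, norm_div, div_pow]
    gcongr
  by_cases hm : ‖m‖ * A ≤ 1 / 2
  · refine (min_le_left _ _).trans ?_
    have h1 : ∀ φ : ℝ, 1 / (4 * A ^ 2) ≤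
        ‖1 / (y + ((r * ψ (φ : UnitAddCircle) + b : ℝ) : ℂ)) - m‖ ^ 2 := by
      intro φ
      refine le_trans ?_ (hpt φ)
      obtain ⟨t, ht⟩ : ∃ t : ℝ, t = r * ψ (φ : UnitAddCircle) + b := ⟨_, rfl⟩
      rw [← ht]
      have h2 : ‖y + (t : ℂ)‖ ≤ A := by
        refine (norm_add_le _ _).trans ?_
        rw [Complex.norm_real, Real.norm_eq_abs]
        have h3 : |t| ≤ r + C := by
          rw [ht]
          refine (abs_add_le _ _).trans ?_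
          have h4 : |r * ψ (φ : UnitAddCircle)| ≤ r := by
            rw [abs_mul, abs_of_pos hr]
            have := hψ.bound (φ : UnitAddCircle)
            nlinarith
          linarith
        rw [hA]; linarith
      have h3 : 1 / 2 ≤ ‖1 - m * (y + t)‖ := by
        have h4 := norm_sub_norm_le (1 : ℂ) (m * (y + t))
        rw [norm_one, norm_mul] at h4
        have h5 : ‖m‖ * ‖y + (t : ℂ)‖ ≤ ‖m‖ * A := by gcongr
        linarith
      have h4 : (1 / 2 : ℝ) ^ 2 ≤ ‖1 - m * (y + t)‖ ^ 2 := by gcongr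
      have e : 1 / (4 * A ^ 2) = (1 / 2 : ℝ) ^ 2 / A ^ 2 := by field_simp; norm_num
      rw [e]
      gcongr
    have h2 := integral_mono (μ := volume.restrict (Ioc (0 : ℝ) 1)) (integrable_const _)
      (hint _ hcF) h1
    simpa using h2
  · refine (min_le_right _ _).trans ?_
    push Not at hm
    have hm0 : m ≠ 0 := by
      rintro rfl
      rw [norm_zero, zero_mul] at hm
      linarith
    obtain ⟨T, hT⟩ : ∃ T : ℝ, T = (m⁻¹ - y).re - b := ⟨_, rfl⟩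
    have h1 : ∀ φ : ℝ, 1 / (4 * A ^ 4) * (T - r * ψ (φ : UnitAddCircle)) ^ 2 ≤
        ‖1 / (y + ((r * ψ (φ : UnitAddCircle) + b : ℝ) : ℂ)) - m‖ ^ 2 := by
      intro φ
      refine le_trans ?_ (hpt φ)
      obtain ⟨t, ht⟩ : ∃ t : ℝ, t = r * ψ (φ : UnitAddCircle) + b := ⟨_, rfl⟩
      rw [← ht]
      have e1 : 1 - m * (y + t) = m * (m⁻¹ - y - t) := by
        have : m * m⁻¹ = 1 := mul_inv_cancel₀ hm0
        linear_combination -this
      have e2 : |T - r * ψ (φ : UnitAddCircle)| ≤ ‖m⁻¹ - y - t‖ := by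
        have h3 := Complex.abs_re_le_norm (m⁻¹ - y - t)
        have h4 : (m⁻¹ - y - (t : ℂ)).re = T - r * ψ (φ : UnitAddCircle) := by
          rw [hT, ht]
          simp only [Complex.sub_re, Complex.ofReal_re]
          ring
        rw [h4] at h3
        exact h3
      have e3 : (T - r * ψ (φ : UnitAddCircle)) ^ 2 ≤ ‖m⁻¹ - y - t‖ ^ 2 := by
        rw [← sq_abs]; gcongr
      have e4 : 1 / (4 * A ^ 2) ≤ ‖m‖ ^ 2 := by
        have h5 : (1 / 2 : ℝ) ^ 2 ≤ (‖m‖ * A) ^ 2 := by gcongr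
        rw [div_le_iff₀ (by positivity)]
        nlinarith
      rw [e1, norm_mul, mul_pow]
      have e5 : 1 / (4 * A ^ 4) * (T - r * ψ (φ : UnitAddCircle)) ^ 2 =
          1 / (4 * A ^ 2) * (T - r * ψ (φ : UnitAddCircle)) ^ 2 / A ^ 2 := by field_simp
      rw [e5]
      gcongr
    have h2 := integral_mono (μ := volume.restrict (Ioc (0 : ℝ) 1))
      ((hint _ (by fun_prop : Continuous fun φ : ℝ => (T - r * ψ (φ : UnitAddCircle)) ^ 2)).const_mul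
        (1 / (4 * A ^ 4))) (hint _ hcF) h1
    rw [integral_const_mul] at h2
    refine le_trans ?_ h2
    have h3 := hV T
    calc v / (4 * A ^ 4) = 1 / (4 * A ^ 4) * v := by ring
      _ ≤ _ := by gcongr

/-- lower bound for the variance of the one site resolvent -/
theorem var_low {ψ : C(UnitAddCircle, ℝ)} (hψ : IsSemi ψ) {r v Y C : ℝ} (hr : 0 < r)
    (hV : ∀ T : ℝ, v ≤ ∫ φ in Ioc (0 : ℝ) 1, (T - r * ψ (φ : UnitAddCircle)) ^ 2)
    (ρ' : Measure ℝ) [IsProbabilityMeasure ρ'] (hρ' : ρ' (Set.Icc (-C) C)ᶜ = 0)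
    {y : ℂ} (hy : y.im < 0) (hyY : ‖y‖ ≤ Y) :
    (Hf ψ r ρ' y).im = -y.im * (∫ a, ‖1 / (y + (a : ℂ))‖ ^ 2 ∂((lev ψ r).conv ρ')) ∧
    min (1 / (4 * (Y + r + |C|) ^ 2)) (v / (4 * (Y + r + |C|) ^ 4)) ≤
      (∫ a, ‖1 / (y + (a : ℂ))‖ ^ 2 ∂((lev ψ r).conv ρ')) - ‖Hf ψ r ρ' y‖ ^ 2 := by
  have hc := cont_inv hy
  have hb := fun a : ℝ => (inv_bound hy a).2
  have hI : Integrable (fun a : ℝ => 1 / (y + (a : ℂ))) ((lev ψ r).conv ρ') :=
    Integrable.of_bound hc.aestronglyMeasurable (1 / (-y.im)) (ae_of_all _ hb)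
  have hI2 : Integrable (fun a : ℝ => ‖1 / (y + (a : ℂ))‖ ^ 2) ((lev ψ r).conv ρ') := by
    refine Integrable.of_bound (hc.norm.pow 2).aestronglyMeasurable ((1 / (-y.im)) ^ 2)
      (ae_of_all _ fun a => ?_)
    rw [norm_pow, norm_norm]
    exact pow_le_pow_left₀ (norm_nonneg _) (hb a) 2
  obtain ⟨m, hm⟩ : ∃ m, m = Hf ψ r ρ' y := ⟨_, rfl⟩
  have hm1 : ∫ a, 1 / (y + (a : ℂ)) ∂((lev ψ r).conv ρ') = m := by
    rw [hm]; exact conv_eq ψ r ρ' hy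
  rw [← hm]
  constructor
  · have him : (∫ a, 1 / (y + (a : ℂ)) ∂((lev ψ r).conv ρ')).im =
        ∫ a, (1 / (y + (a : ℂ))).im ∂((lev ψ r).conv ρ') := (integral_im hI).symm
    rw [← hm1, him, ← integral_const_mul]
    congr 1
    funext a
    have h1 := (inv_bound hy a).1
    rw [norm_div, norm_one, div_pow, one_pow, Complex.sq_norm]
    rw [one_div, Complex.inv_im]
    simp only [Complex.add_im, Complex.ofReal_im, add_zero]
    ring
  · have e1 : (∫ a, ‖1 / (y + (a : ℂ))‖ ^ 2 ∂((lev ψ r).conv ρ')) - ‖m‖ ^ 2 =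
        ∫ a, ‖1 / (y + (a : ℂ)) - m‖ ^ 2 ∂((lev ψ r).conv ρ') := by
      have e2 : ∀ a : ℝ, ‖1 / (y + (a : ℂ)) - m‖ ^ 2 = ‖1 / (y + (a : ℂ))‖ ^ 2 +
          (‖m‖ ^ 2 + (-2) * ((starRingEnd ℂ) m * (1 / (y + (a : ℂ)))).re) := by
        intro a
        simp only [Complex.sq_norm, Complex.normSq_apply, Complex.sub_re, Complex.sub_im,
          Complex.mul_re, Complex.conj_re, Complex.conj_im]
        ring
      simp_rw [e2]
      have hI3 := hI.const_mul ((starRingEnd ℂ) m)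
      have hI4 : Integrable (fun a : ℝ => ((starRingEnd ℂ) m * (1 / (y + (a : ℂ)))).re)
        ((lev ψ r).conv ρ') := hI3.re
      have hI5 : Integrable (fun a : ℝ => (-2) * ((starRingEnd ℂ) m * (1 / (y + (a : ℂ)))).re)
        ((lev ψ r).conv ρ') := hI4.const_mul _
      have hI6 : Integrable (fun a : ℝ => ‖m‖ ^ 2 +
        (-2) * ((starRingEnd ℂ) m * (1 / (y + (a : ℂ)))).re) ((lev ψ r).conv ρ') :=
        (integrable_const _).add hI5
      rw [integral_add hI2 hI6, integral_add (integrable_const _) hI5, integral_const_mul]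
      have e3 : ∫ a : ℝ, ((starRingEnd ℂ) m * (1 / (y + (a : ℂ)))).re ∂((lev ψ r).conv ρ') =
          ‖m‖ ^ 2 := by
        have h5 := integral_re hI3
        have h6 : ∫ a : ℝ, ((starRingEnd ℂ) m * (1 / (y + (a : ℂ)))).re ∂((lev ψ r).conv ρ') =
          (∫ a : ℝ, ((starRingEnd ℂ) m * (1 / (y + (a : ℂ)))) ∂((lev ψ r).conv ρ')).re := h5
        rw [h6, integral_const_mul, hm1, Complex.sq_norm, ← Complex.normSq_eq_conj_mul_self]
        simp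
      rw [e3]
      simp
      ring
    rw [e1]
    unfold Measure.conv
    have hcm : Continuous fun a : ℝ => ‖1 / (y + (a : ℂ)) - m‖ ^ 2 :=
      (hc.sub continuous_const).norm.pow 2
    have hbm : ∀ a : ℝ, ‖‖1 / (y + (a : ℂ)) - m‖ ^ 2‖ ≤ (1 / (-y.im) + ‖m‖) ^ 2 := by
      intro a
      rw [norm_pow, norm_norm]
      refine pow_le_pow_left₀ (norm_nonneg _) ((norm_sub_le _ _).trans ?_) 2
      have := hb a
      linarith
    rw [integral_map (by fun_prop) hcm.aestronglyMeasurable]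
    have hint2 : Integrable (fun p : ℝ × ℝ => ‖1 / (y + ((p.1 + p.2 : ℝ) : ℂ)) - m‖ ^ 2)
        ((lev ψ r).prod ρ') := by
      refine Integrable.of_bound ?_ ((1 / (-y.im) + ‖m‖) ^ 2) (ae_of_all _ fun p => hbm _)
      exact (hcm.comp (by fun_prop : Continuous fun p : ℝ × ℝ => p.1 + p.2)).aestronglyMeasurable
    rw [integral_prod_symm _ hint2]
    have h7 : ∀ᵐ b ∂ρ', min (1 / (4 * (Y + r + |C|) ^ 2)) (v / (4 * (Y + r + |C|) ^ 4)) ≤
        ∫ a, ‖1 / (y + ((a + b : ℝ) : ℂ)) - m‖ ^ 2 ∂(lev ψ r) := by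
      have h8 : ∀ᵐ b ∂ρ', b ∈ Set.Icc (-C) C := hρ'
      filter_upwards [h8] with b hb2
      have hbC : |b| ≤ |C| := (abs_le.2 hb2).trans (le_abs_self C)
      refine (one_var hψ hr hV hy hyY hbC m).trans (le_of_eq ?_)
      unfold lev
      rw [integral_map (meas_lev ψ r).aemeasurable]
      exact (hcm.comp (by fun_prop : Continuous fun t : ℝ => t + b)).aestronglyMeasurable
    have h9 := integral_mono_ae (μ := ρ') (integrable_const _) hint2.integral_prod_right h7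
    simpa using h9

/-- the gap of the effective contraction -/
theorem gap {ψ : C(UnitAddCircle, ℝ)} (hψ : IsSemi ψ) {r v Y C : ℝ} (hr : 0 < r) (hv : 0 < v)
    (hV : ∀ T : ℝ, v ≤ ∫ φ in Ioc (0 : ℝ) 1, (T - r * ψ (φ : UnitAddCircle)) ^ 2)
    (ρ' : Measure ℝ) [IsProbabilityMeasure ρ'] (hρ' : ρ' (Set.Icc (-C) C)ᶜ = 0)
    {x s B : ℂ} (hx : x.im < 0) (hs : ‖s‖ ≤ 1) (hs1 : 1 - s ≠ 0) (hyY : ‖ys x s‖ ≤ Y)
    (hB : B = 1 / (1 - s) + 2 * Complex.I / (1 - s) ^ 2 * Hf ψ r ρ' (ys x s)) :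
    1 / 4 * (1 - ‖s‖ ^ 2) * min (1 / (4 * (Y + r + |C|) ^ 2)) (v / (4 * (Y + r + |C|) ^ 4)) ≤
      ‖1 + s * B‖ ^ 2 - ‖B‖ ^ 2 := by
  have hy := ys_im hx hs
  obtain ⟨h1, h2⟩ := var_low hψ hr hV ρ' hρ' hy hyY
  rw [alg_id hs1 hB]
  obtain ⟨P, hP⟩ : ∃ P, P = ∫ a, ‖1 / (ys x s + (a : ℂ))‖ ^ 2 ∂((lev ψ r).conv ρ') := ⟨_, rfl⟩
  obtain ⟨m, hm⟩ : ∃ m, m = Hf ψ r ρ' (ys x s) := ⟨_, rfl⟩
  obtain ⟨cv, hcv⟩ : ∃ cv, cv = min (1 / (4 * (Y + r + |C|) ^ 2)) (v / (4 * (Y + r + |C|) ^ 4)) :=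
    ⟨_, rfl⟩
  rw [← hP, ← hm] at h1 h2
  rw [← hcv] at h2
  rw [← hcv, ← hm]
  have hP0 : 0 ≤ P := by rw [hP]; exact integral_nonneg fun a => by positivity
  have hp : 0 < ‖1 - s‖ := norm_pos_iff.2 hs1
  have hn : 0 < ‖1 - s‖ ^ 2 := by positivity
  have hn4 : ‖1 - s‖ ^ 2 ≤ 4 := by
    have : ‖1 - s‖ ≤ 2 := by
      refine (norm_sub_le _ _).trans ?_
      rw [norm_one]; linarith
    nlinarith
  have hs2 : 0 ≤ 1 - ‖s‖ ^ 2 := by
    have : ‖s‖ ^ 2 ≤ 1 := pow_le_one₀ (norm_nonneg _) hs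
    linarith
  have hyi : (1 - ‖s‖ ^ 2) / ‖1 - s‖ ^ 2 ≤ -(ys x s).im := by
    have e : (ys x s).im = x.im - (1 - ‖s‖ ^ 2) / Complex.normSq (1 - s) := by
      unfold ys
      rw [Complex.sub_im, Complex.div_im, Complex.sq_norm, Complex.normSq_apply s]
      simp only [Complex.mul_re, Complex.mul_im, Complex.I_re, Complex.I_im, Complex.add_re,
        Complex.add_im, Complex.one_re, Complex.one_im, Complex.sub_re, Complex.sub_im]
      ring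
    rw [e, Complex.sq_norm (1 - s)]
    linarith
  obtain ⟨N, hN⟩ : ∃ N, N = ‖1 - s‖ ^ 2 := ⟨_, rfl⟩
  rw [← hN] at hn hn4 hyi ⊢
  have h3 : (1 - ‖s‖ ^ 2) / N * P ≤ m.im := by
    rw [h1]; gcongr
  have hcv0 : 0 ≤ cv := by
    have hY : 0 ≤ Y := (norm_nonneg _).trans hyY
    rw [hcv]
    refine le_min ?_ ?_ <;> positivity
  have h4 : 4 * (1 - ‖s‖ ^ 2) * cv / N ^ 2 ≤
      4 * m.im / N - 4 * (1 - ‖s‖ ^ 2) * ‖m‖ ^ 2 / N ^ 2 := by
    have h5 : 4 * ((1 - ‖s‖ ^ 2) / N * P) / N ≤ 4 * m.im / N := by gcongr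
    have h6 : 4 * ((1 - ‖s‖ ^ 2) / N * P) / N = 4 * (1 - ‖s‖ ^ 2) * P / N ^ 2 := by field_simp
    have h7 : 4 * (1 - ‖s‖ ^ 2) * cv / N ^ 2 ≤ 4 * (1 - ‖s‖ ^ 2) * (P - ‖m‖ ^ 2) / N ^ 2 := by
      gcongr
    have h8 : 4 * (1 - ‖s‖ ^ 2) * (P - ‖m‖ ^ 2) / N ^ 2 =
        4 * (1 - ‖s‖ ^ 2) * P / N ^ 2 - 4 * (1 - ‖s‖ ^ 2) * ‖m‖ ^ 2 / N ^ 2 := by ring
    linarith
  refine le_trans ?_ h4
  rw [le_div_iff₀ (by positivity)]
  have h9 : N ^ 2 ≤ 16 := by nlinarith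
  have h10 : 0 ≤ (1 - ‖s‖ ^ 2) * cv := mul_nonneg hs2 hcv0
  nlinarith

/-- lower bound for the gap of the averaged contraction -/
theorem gapU {s B U : ℂ} {CB g : ℝ} (hs : ‖s‖ ≤ 1) (hB : ‖B‖ ≤ CB)
    (hU : U * (1 + s * B) = B) (hg : g ≤ ‖1 + s * B‖ ^ 2 - ‖B‖ ^ 2) (h1 : ‖U‖ ≤ 1) :
    g ≤ (1 - ‖U‖ ^ 2) * (1 + CB) ^ 2 := by
  have h2 : ‖B‖ ^ 2 = ‖U‖ ^ 2 * ‖1 + s * B‖ ^ 2 := by
    rw [← mul_pow, ← norm_mul, hU]
  have h3 : ‖1 + s * B‖ ≤ 1 + CB := by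
    refine (norm_add_le _ _).trans ?_
    rw [norm_one, norm_mul]
    have : ‖s‖ * ‖B‖ ≤ 1 * CB := mul_le_mul hs hB (norm_nonneg _) zero_le_one
    linarith
  have h4 : ‖1 + s * B‖ ^ 2 ≤ (1 + CB) ^ 2 := by gcongr
  have h5 : 0 ≤ 1 - ‖U‖ ^ 2 := by
    have : ‖U‖ ^ 2 ≤ 1 := pow_le_one₀ (norm_nonneg _) h1
    linarith
  calc g ≤ ‖1 + s * B‖ ^ 2 - ‖B‖ ^ 2 := hg
    _ = (1 - ‖U‖ ^ 2) * ‖1 + s * B‖ ^ 2 := by rw [h2]; ring
    _ ≤ _ := by gcongr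

/-- comparison of the means -/
theorem mean_close (X Y : MX) {t : ℝ} (ht : 0 < t) (h : cd X Y ≤ t ^ 2) :
    ‖∫ x, cay x ∂(qlaw X) - ∫ x, cay x ∂(qlaw Y)‖ ≤ t := by
  have e : ∀ Z : MX, ∫ x, cay x ∂(qlaw Z) = ∫ u in Ioc (0 : ℝ) 1, cay (Z.1 u) := by
    intro Z
    unfold qlaw
    rw [integral_map Z.2.aemeasurable cay_meas.aestronglyMeasurable]
  have hi : ∀ Z : MX, Integrable (fun u => cay (Z.1 u)) (volume.restrict (Ioc (0 : ℝ) 1)) := by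
    intro Z
    refine Integrable.of_bound (cay_meas.comp Z.2).aestronglyMeasurable 1 (ae_of_all _ fun u => ?_)
    exact (cay_norm _).le
  have hm : Measurable fun u => cay (X.1 u) - cay (Y.1 u) :=
    (cay_meas.comp X.2).sub (cay_meas.comp Y.2)
  have hi2 : Integrable (fun u => ‖cay (X.1 u) - cay (Y.1 u)‖ ^ 2)
      (volume.restrict (Ioc (0 : ℝ) 1)) := by
    refine Integrable.of_bound (hm.norm.pow_const 2).aestronglyMeasurable 4
      (ae_of_all _ fun u => ?_)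
    rw [norm_pow, norm_norm]
    have h1 : ‖cay (X.1 u) - cay (Y.1 u)‖ ≤ 2 := by
      refine (norm_sub_le _ _).trans ?_
      rw [cay_norm, cay_norm]; norm_num
    have := norm_nonneg (cay (X.1 u) - cay (Y.1 u))
    nlinarith
  rw [e, e, ← integral_sub (hi X) (hi Y)]
  refine (norm_integral_le_integral_norm _).trans ?_
  have h1 : ∫ u in Ioc (0 : ℝ) 1, ‖cay (X.1 u) - cay (Y.1 u)‖ ≤
      ∫ u in Ioc (0 : ℝ) 1, ((1 / (2 * t)) * ‖cay (X.1 u) - cay (Y.1 u)‖ ^ 2 + t / 2) := by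
    refine integral_mono ((hi X).sub (hi Y)).norm ((hi2.const_mul _).add (integrable_const _))
      fun u => ?_
    show ‖cay (X.1 u) - cay (Y.1 u)‖ ≤
      (1 / (2 * t)) * ‖cay (X.1 u) - cay (Y.1 u)‖ ^ 2 + t / 2
    obtain ⟨a, ha⟩ : ∃ a, a = ‖cay (X.1 u) - cay (Y.1 u)‖ := ⟨_, rfl⟩
    rw [← ha]
    have h2 : 1 / (2 * t) * a ^ 2 + t / 2 - a = (a - t) ^ 2 / (2 * t) := by
      field_simp
      ring
    have h3 : 0 ≤ (a - t) ^ 2 / (2 * t) := by positivity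
    linarith
  refine h1.trans ?_
  have h6 : ∫ _ in Ioc (0 : ℝ) 1, t / 2 = t / 2 := by simp
  rw [integral_add (hi2.const_mul _) (integrable_const _), integral_const_mul, h6]
  unfold cd at h
  have h4 : 1 / (2 * t) * (∫ u in Ioc (0 : ℝ) 1, ‖cay (X.1 u) - cay (Y.1 u)‖ ^ 2) ≤
      1 / (2 * t) * t ^ 2 := by gcongr
  have h5 : 1 / (2 * t) * t ^ 2 = t / 2 := by field_simp
  linarith

theorem vr_close (X Y : MX) {t : ℝ} (ht : 0 < t) (ht1 : t ≤ 1) (h : cd X Y ≤ t ^ 2) :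
    vr (qlaw Y) - 3 * t ≤ vr (qlaw X) := by
  have h1 := mean_close X Y ht h
  unfold vr
  obtain ⟨a, ha⟩ : ∃ a, a = ∫ x, cay x ∂(qlaw X) := ⟨_, rfl⟩
  obtain ⟨b, hb⟩ : ∃ b, b = ∫ x, cay x ∂(qlaw Y) := ⟨_, rfl⟩
  rw [← ha, ← hb] at h1 ⊢
  have h2 : ‖a‖ ≤ ‖b‖ + t := by
    have : a = b + (a - b) := by ring
    calc ‖a‖ = ‖b + (a - b)‖ := by rw [← this]
      _ ≤ ‖b‖ + ‖a - b‖ := norm_add_le _ _
      _ ≤ _ := by linarith
  have h3 : ‖b‖ ≤ 1 := by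
    rw [hb]
    calc ‖∫ x, cay x ∂(qlaw Y)‖ ≤ ∫ x, ‖cay x‖ ∂(qlaw Y) := norm_integral_le_integral_norm _
      _ = 1 := by simp [cay_norm]
  have h4 : ‖a‖ ^ 2 ≤ (‖b‖ + t) ^ 2 := by gcongr
  nlinarith [norm_nonneg b]


end Pool.Agent.W12.WA.Base4
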