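import Pool.Agent.W792.WA.Stm3

/-! Project WA: quantile functions for all laws. -/

set_option autoImplicit false

open MeasureTheory Filter
open scoped Topology

namespace Pool.Agent.W12.WA.Qnt2

open Pool.Agent.W792.WA ProbabilityTheory

/-- the set whose infimum is the quantile -/
def SS (μ : Measure ℝ) (u : ℝ) : Set ℝ := {x | u ≤ cdf μ x}

theorem SS_ne {μ : Measure ℝ} {u : ℝ} (hu : u < 1) : (SS μ u).Nonempty := by
  have h := tendsto_cdf_atTop μ
  exact ((h.eventually (lt_mem_nhds hu)).exists).imp fun x hx => le_of_lt hx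

theorem SS_bdd {μ : Measure ℝ} {u : ℝ} (hu : 0 < u) : BddBelow (SS μ u) := by
  have h := tendsto_cdf_atBot μ
  obtain ⟨a, ha⟩ := (h.eventually (gt_mem_nhds hu)).exists
  refine ⟨a, fun x hx => ?_⟩
  by_contra hc
  have h1 : x ≤ a := (not_le.1 hc).le
  have h2 : u ≤ cdf μ x := hx
  have h3 := monotone_cdf μ h1
  linarith

open Classical in
/-- the quantile function -/
noncomputable def Xf (μ : Measure ℝ) (u : ℝ) : ℝ :=
  if u ∈ Set.Ioo (0 : ℝ) 1 then sInf (SS μ u) else 0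

theorem Xf_iff {μ : Measure ℝ} {u : ℝ} (hu : u ∈ Set.Ioo (0 : ℝ) 1) (x : ℝ) :
    Xf μ u ≤ x ↔ u ≤ cdf μ x := by
  unfold Xf
  rw [if_pos hu]
  constructor
  · intro h
    have hr : Tendsto (cdf μ) (𝓝[>] x) (𝓝 (cdf μ x)) :=
      ((cdf μ).right_continuous x).tendsto.mono_left (nhdsWithin_mono x Set.Ioi_subset_Ici_self)
    have hev : ∀ᶠ y in 𝓝[>] x, u ≤ cdf μ y := by
      filter_upwards [self_mem_nhdsWithin] with y hy
      obtain ⟨z, hz, hzy⟩ := (csInf_lt_iff (SS_bdd hu.1) (SS_ne hu.2)).1 (lt_of_le_of_lt h hy)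
      exact le_trans (show u ≤ cdf μ z from hz) (monotone_cdf μ hzy.le)
    exact ge_of_tendsto hr hev
  · intro h
    exact csInf_le (SS_bdd hu.1) h

theorem Xf_mono (μ : Measure ℝ) : MonotoneOn (Xf μ) (Set.Ioo 0 1) := by
  intro u hu v hv huv
  rw [Xf_iff hu]
  exact huv.trans ((Xf_iff hv _).1 le_rfl)

theorem Xf_meas (μ : Measure ℝ) : Measurable (Xf μ) := by
  refine measurable_of_Iic fun a => ?_
  have : Xf μ ⁻¹' Set.Iic a
      = (Set.Ioo 0 1 ∩ Set.Iic (cdf μ a)) ∪ ((Set.Ioo (0 : ℝ) 1)ᶜ ∩ {_u | (0 : ℝ) ≤ a}) := by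
    ext u
    by_cases hu : u ∈ Set.Ioo (0 : ℝ) 1
    · have h1 := Xf_iff (μ := μ) hu a
      constructor
      · intro h
        exact Or.inl ⟨hu, h1.1 h⟩
      · rintro (h | h)
        · exact h1.2 h.2
        · exact absurd hu h.1
    · have h1 : Xf μ u = 0 := by unfold Xf; rw [if_neg hu]
      constructor
      · intro h
        refine Or.inr ⟨hu, ?_⟩
        have h2 : Xf μ u ≤ a := h
        rw [h1] at h2
        exact h2
      · rintro (h | h)
        · exact absurd h.1 hu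
        · have h2 : (0 : ℝ) ≤ a := h.2
          show Xf μ u ≤ a
          rw [h1]
          exact h2
  rw [this]
  exact (measurableSet_Ioo.inter measurableSet_Iic).union
    (measurableSet_Ioo.compl.inter (MeasurableSet.const _))

theorem main : S_QNT2 := by
  intro μ _
  let X : MX := ⟨Xf μ, Xf_meas μ⟩
  refine ⟨X, Xf_mono μ, ?_⟩
  have : IsFiniteMeasure (qlaw X) := inferInstance
  refine Measure.ext_of_Iic (qlaw X) μ fun x => ?_
  show Measure.map (Xf μ) (volume.restrict (Set.Ioc (0 : ℝ) 1)) (Set.Iic x) = μ (Set.Iic x)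
  rw [Measure.map_apply (Xf_meas μ) measurableSet_Iic,
    ← Measure.restrict_congr_set (μ := volume) (Ioo_ae_eq_Ioc (a := (0 : ℝ)) (b := 1)),
    Measure.restrict_apply ((Xf_meas μ) measurableSet_Iic)]
  have e1 : Xf μ ⁻¹' Set.Iic x ∩ Set.Ioo 0 1 = Set.Ioo 0 1 ∩ Set.Iic (cdf μ x) := by
    ext u
    constructor
    · rintro ⟨h1, h2⟩
      exact ⟨h2, (Xf_iff h2 x).1 h1⟩
    · rintro ⟨h1, h2⟩
      exact ⟨(Xf_iff h1 x).2 h2, h1⟩
  have hc1 := cdf_le_one μ x
  rw [e1, ← ofReal_cdf]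
  apply le_antisymm
  · calc volume (Set.Ioo 0 1 ∩ Set.Iic (cdf μ x)) ≤ volume (Set.Ioc 0 (cdf μ x)) :=
          measure_mono fun u hu => ⟨hu.1.1, hu.2⟩
      _ = ENNReal.ofReal (cdf μ x) := by rw [Real.volume_Ioc, sub_zero]
  · calc ENNReal.ofReal (cdf μ x) = volume (Set.Ioo 0 (cdf μ x)) := by
          rw [Real.volume_Ioo, sub_zero]
      _ ≤ volume (Set.Ioo 0 1 ∩ Set.Iic (cdf μ x)) :=
          measure_mono fun u hu => ⟨⟨hu.1, lt_of_lt_of_le hu.2 hc1⟩, hu.2.le⟩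

end Pool.Agent.W12.WA.Qnt2
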